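import Pool.Agent.Y593.LC.HC
set_option autoImplicit false
open Set Filter Topology
open scoped ContDiff

/-!
# Project HF (helper593), job HF-C3: non-degeneracy (helper480)
-/

namespace Pool.Agent.Y480.HF3

open Pool.Agent.H660R3 Pool.Agent.H660R3.Stair Real Pool.Agent.Y593.LC.HC

theorem n2_pos {y : EE 4} (h : y ≠ 0) : 0 < n2 y := by
  have h1 : 0 ≤ n2 y := by unfold n2; positivity
  refine lt_of_le_of_ne h1 fun h2 => h ?_
  unfold n2 at h2
  have e0 : y 0 = 0 := by nlinarith [sq_nonneg (y 0), sq_nonneg (y 1), sq_nonneg (y 2), sq_nonneg (y 3)]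
  have e1 : y 1 = 0 := by nlinarith [sq_nonneg (y 0), sq_nonneg (y 1), sq_nonneg (y 2), sq_nonneg (y 3)]
  have e2 : y 2 = 0 := by nlinarith [sq_nonneg (y 0), sq_nonneg (y 1), sq_nonneg (y 2), sq_nonneg (y 3)]
  have e3 : y 3 = 0 := by nlinarith [sq_nonneg (y 0), sq_nonneg (y 1), sq_nonneg (y 2), sq_nonneg (y 3)]
  ext i
  fin_cases i
  · simpa using e0
  · simpa using e1
  · simpa using e2
  · simpa using e3

theorem nondeg {ε K : ℝ} (hε : 0 ≤ ε) (hK : ∀ t, |ee t| ≤ K) (hεK : ε * (1 + K) < 1) {y : EE 4}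
    (hy : y ≠ 0) (u : EE 4)
    (h : ∀ v, ε * (dW y u * (jp y v / n2 y) - dW y v * (jp y u / n2 y)) + d0 y u v -
      (al y u * (jp y v / n2 y) - al y v * (jp y u / n2 y)) = 0) : u = 0 := by
  have hn : 0 < n2 y := n2_pos hy
  have hL : 0 < Real.log 2 := Real.log_pos (by norm_num)
  have hn' := hn.ne'
  have hL' := hL.ne'
  have hipy : ip y y = n2 y := by unfold ip n2; ring
  have hjpy : jp y y = 0 := by unfold jp; ring
  have hjuy : jp u y = - jp y u := by unfold jp; ring
  -- the value of `dW y y`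
  have hdW : dW y y =
      ∑ i : Fin 4, y i ^ 2 / n2 y * ((1 - ee (th y - (i : ℕ) / 4)) / Real.log 2) := by
    unfold dW
    refine Finset.sum_congr rfl fun i _ => ?_
    rw [hipy]
    field_simp
    ring
  have hsum : ∑ i : Fin 4, y i ^ 2 / n2 y = 1 := by
    rw [← Finset.sum_div, Fin.sum_univ_four, div_eq_one_iff_eq hn']
    rfl
  have hb : |dW y y| ≤ (1 + K) / Real.log 2 := by
    rw [hdW]
    calc |∑ i : Fin 4, y i ^ 2 / n2 y * ((1 - ee (th y - (i : ℕ) / 4)) / Real.log 2)|
        ≤ ∑ i : Fin 4, |y i ^ 2 / n2 y * ((1 - ee (th y - (i : ℕ) / 4)) / Real.log 2)| :=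
          Finset.abs_sum_le_sum_abs _ _
      _ ≤ ∑ i : Fin 4, y i ^ 2 / n2 y * ((1 + K) / Real.log 2) := by
          refine Finset.sum_le_sum fun i _ => ?_
          have h0 : 0 ≤ y i ^ 2 / n2 y := by positivity
          rw [abs_mul, abs_of_nonneg h0, abs_div, abs_of_pos hL]
          refine mul_le_mul_of_nonneg_left ?_ h0
          refine div_le_div_of_nonneg_right ?_ hL.le
          have h1 := hK (th y - (i : ℕ) / 4)
          rw [abs_le] at h1 ⊢
          constructor <;> linarith [h1.1, h1.2]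
      _ = _ := by rw [← Finset.sum_mul, hsum, one_mul]
  have hpos : 0 < 1 / Real.log 2 - ε * dW y y := by
    have h1 : ε * dW y y ≤ ε * ((1 + K) / Real.log 2) :=
      mul_le_mul_of_nonneg_left ((le_abs_self _).trans hb) hε
    have h2 : ε * ((1 + K) / Real.log 2) < 1 / Real.log 2 := by
      rw [← mul_div_assoc]
      exact div_lt_div_of_pos_right hεK hL
    linarith
  have haly : al y y = 1 / Real.log 2 := by
    unfold al
    rw [hipy]
    field_simp
  -- first: `jp y u = 0`
  have hju : jp y u = 0 := by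
    have h1 := h y
    rw [hjpy, haly] at h1
    have h2 : d0 y u y = 0 := by
      unfold d0
      rw [hjuy, hjpy, hipy]
      field_simp
      ring
    rw [h2] at h1
    have h3 : (1 / Real.log 2 - ε * dW y y) * (jp y u / n2 y) = 0 := by
      linear_combination h1
    rcases mul_eq_zero.1 h3 with h4 | h4
    · exact absurd h4 hpos.ne'
    · exact (div_eq_zero_iff.1 h4).resolve_right hn'
  -- second: `ε dW y u = al y u`
  have hd0 : ∀ v, d0 y u v = 2 * jp u v / n2 y - 2 * (ip y u * jp y v) / n2 y ^ 2 := by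
    intro v
    unfold d0
    rw [hju]
    ring
  have he : ε * dW y u = al y u := by
    have h1 := h !₂[-y 1, y 0, -y 3, y 2]
    rw [hju, hd0] at h1
    have a1 : jp y !₂[-y 1, y 0, -y 3, y 2] = n2 y := by
      unfold jp n2
      simp
      ring
    have a2 : jp u !₂[-y 1, y 0, -y 3, y 2] = ip y u := by
      unfold jp ip
      simp
      ring
    rw [a1, a2] at h1
    have a3 : 2 * ip y u / n2 y - 2 * (ip y u * n2 y) / n2 y ^ 2 = 0 := by
      field_simp
      ring
    rw [a3, div_self hn'] at h1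
    linear_combination h1
  -- third: `jp u v = c jp y v`
  obtain ⟨c, hc⟩ : ∃ c, c = ip y u / n2 y := ⟨_, rfl⟩
  have hv : ∀ v, jp u v = c * jp y v := by
    intro v
    have h1 := h v
    rw [hju, hd0] at h1
    have h2 : 2 * jp u v / n2 y - 2 * (ip y u * jp y v) / n2 y ^ 2 = 0 := by
      linear_combination h1 - jp y v / n2 y * he
    rw [hc]
    field_simp at h2 ⊢
    linarith
  have u0 : u 0 = c * y 0 := by
    have h1 := hv !₂[0, 1, 0, 0]
    unfold jp at h1
    simpa using h1
  have u1 : u 1 = c * y 1 := by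
    have h1 := hv !₂[1, 0, 0, 0]
    unfold jp at h1
    simpa using h1
  have u2 : u 2 = c * y 2 := by
    have h1 := hv !₂[0, 0, 0, 1]
    unfold jp at h1
    simpa using h1
  have u3 : u 3 = c * y 3 := by
    have h1 := hv !₂[0, 0, 1, 0]
    unfold jp at h1
    simpa using h1
  have hu : u = c • y := by
    ext i
    fin_cases i
    · simpa using u0
    · simpa using u1
    · simpa using u2
    · simpa using u3
  have hipc : ip y u = c * n2 y := by
    rw [hc]
    field_simp
  have hdWc : dW y u = c * dW y y := by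
    unfold dW
    rw [Finset.mul_sum]
    refine Finset.sum_congr rfl fun i _ => ?_
    rw [hipc, hipy, hu]
    simp only [PiLp.smul_apply, smul_eq_mul]
    ring
  have halc : al y u = c * (1 / Real.log 2) := by
    unfold al
    rw [hipc]
    field_simp
  rw [hdWc, halc] at he
  have h3 : c * (1 / Real.log 2 - ε * dW y y) = 0 := by linear_combination -he
  rcases mul_eq_zero.1 h3 with h4 | h4
  · rw [hu, h4, zero_smul]
  · exact absurd h4 hpos.ne'

end Pool.Agent.Y480.HF3
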